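import Pool.Agent.J4.H18.CV.K
import Mathlib.GroupTheory.FiniteAbelian.Duality
import Mathlib.RingTheory.RootsOfUnity.AlgebraicallyClosed

/-!
# MP_83b46e_ag: Voisin's conjecture for quotients of products of two curves by abelian groups

Let `G` be a finite group acting on two smooth projective curves `C₁`, `C₂` over an algebraically
closed field `k` of characteristic zero, and let `S = (C₁ × C₂)/G` be the quotient by the diagonal
action.

Part 2. Let `G` be abelian. A nontrivial character `χ : G → kˣ` gives a cyclic cover of `C/G`, with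
an equation `w ^ m = δ`, `δ` a function on `C/G`, `h w = χ h * w` for `h` in `G`. Its branch points
are the points where the order of `δ` is not divisible by `m`. Assume that for both curves and all
`χ ≠ 1` there are branch points and that they can be arranged in pairs with opposite orders of `δ`
modulo `m` (`SymmetricCover`); let `r χ` be the number of pairs and `g` the genus of `C/G`. The
genera of `C₁/G`, `C₂/G`, the group and the number of branch points are arbitrary. By the formula of
Chevalley and Weil the dimension of the space of differential forms on `C` on which `G` acts by `χ`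
is `d χ = g - 1 + r χ`, and `d 1 = g`. So the geometric genus of `S` is `∑ d₁ χ * d₂ χ`. The
theorem: Voisin's conjecture with rational coefficients is true for `S`, that is, if `n` is greater
than the geometric genus then the alternating sum of `a 1 × ... × a n` on `S ^ n` is zero in the
Chow group with rational coefficients, for all zero-cycles `a 1`, ..., `a n` of degree zero on `S`
which are zero in the Albanese variety. If `d₁ χ = 0` then nothing is assumed about `χ` on `C₂` and
vice versa.

For example let `C₁`, `C₂` be the curves `y ^ N = ((x - a 1)/(x - b 1)) ^ (e 1) * ... *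
((x - a s)/(x - b s)) ^ (e s)`, for arbitrary different points `a i`, `b i` and exponents `e i`
such that the greatest common divisor of `N` and all `e i` is one; then all characters of the cyclic
group of order `N` satisfy the assumption, and the theorem covers the quotients of `C₁ × C₂` by
this group (acting by arbitrary faithful characters on `y`), surfaces of general type with
arbitrarily large geometric genus. More generally `x` may be replaced by a curve `D` of arbitrary genus: all
cyclic covers of `D` such that the branch points are in pairs with opposite monodromy.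

Part 1. Let `G` be an arbitrary finite group, `H j` subgroups, `u j` characters of `H j` with
values in `kˣ` and `c j` elements of `k` with sum not zero such that `∑ c j |H j| Ind (u j)` is a
multiple of the regular character of `G`. If `n > ∑ m j`, with `m j = d₁ j * d₂ j` as above for
the action of `H j` and the character `u j`, then the same conclusion holds.

The theorem of a teammate (PrymQuotients) is the case of characters with the values `1` and `-1`
(where the condition on pairs is empty; it also contains some unramified double covers). The new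
ingredient is a vanishing theorem for characters of arbitrary order (`van_pairs` in
`Pool.Agent.J4.H18.CV.G`): let `H` act on the curve `C`, let `D u x` be the zero-cycle
`∑ (u h)⁻¹ (h x)`. Then the symmetrization of `D u (x 0) × ... × D u (x d)`, `d = g - 1 + r`, is zero
in the Chow group of `C ^ (d + 1)` with coefficients in `k`. Proof. By the theorem of Riemann
there is a nonconstant function `t` on `C/H` whose poles are at most at the images of the `x i`
and which has equal values at the two points of each of `r - 1` pairs. The norm of `δ` for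
`t : C/H → P¹` is, up to a power with exponent `m`, equal to `((t - c)/(t - c')) ^ e`, where
`c`, `c'` are the values of `t` at the points of the last pair. So the products of `D u` over the
points of the fibres of `t`, with the choice of the points over them given by the values of the
product of the conjugates of `w`, are a function on the
cyclic cover of `P¹` branched in `c`, `c'`, which is a rational curve; it is zero at `c`, where `D u`
is zero at one of the points, so it is zero at infinity.
-/

set_option autoImplicit false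

open FF IntermediateField

namespace Pool.Agent.Results.MP_83b46e_ag.AbelianQuotients

open Pool.Agent.J4.H17.ZC Pool.Agent.J4.H18.CV

section defs

variable {k : Type} [Field k] {K1 K2 : Type} [Field K1] [Algebra k K1] [Field K2] [Algebra k K2]
  {G : Type} [Group G]

/-- Two pairs of points are equivalent if they are in the same orbit of the diagonal action of the
group `G`, which acts on the two curves by `α1` and `α2`. -/
def orb (α1 : G →* (K1 ≃ₐ[k] K1)) (α2 : G →* (K2 ≃ₐ[k] K2)) :
    Setoid (Place k K1 × Place k K2) where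
  r x y := ∃ g : G, y = (act (α1 g) x.1, act (α2 g) x.2)
  iseqv :=
    { refl := fun x => ⟨1, by rw [map_one, map_one, act_one, act_one]⟩
      symm := by
        rintro x y ⟨g, rfl⟩
        refine ⟨g⁻¹, ?_⟩
        change x = (act (α1 g⁻¹) (act (α1 g) x.1), act (α2 g⁻¹) (act (α2 g) x.2))
        rw [← act_mul, ← act_mul, ← map_mul, ← map_mul, inv_mul_cancel, map_one, map_one, act_one,
          act_one]
      trans := by
        rintro x y z ⟨g, rfl⟩ ⟨h, rfl⟩
        refine ⟨h * g, ?_⟩
        rw [map_mul, map_mul, act_mul, act_mul] }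

/-- The quotient of the product of the two curves by the diagonal action of the group. -/
def quotSurf (α1 : G →* (K1 ≃ₐ[k] K1)) (α2 : G →* (K2 ≃ₐ[k] K2)) : Var k :=
  ((curve k K1).prod (curve k K2)).quot (Quotient.mk (orb α1 α2))

/-- The sum of the images under the group of the first coordinate of a point of the quotient
surface: the inverse image on `C₁` of the image of the point in `C₁/G`. -/
noncomputable def fst [Fintype G] (α1 : G →* (K1 ≃ₐ[k] K1)) (α2 : G →* (K2 ≃ₐ[k] K2)) :
    (quotSurf α1 α2).Pt → (Place k K1 →₀ ℤ) :=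
  Quotient.lift (fun x : Place k K1 × Place k K2 => ∑ g : G, Finsupp.single (act (α1 g) x.1) 1) (by
    rintro x _ ⟨g, rfl⟩
    exact (NN_act α1 g x.1).symm)

/-- The sum of the images under the group of the second coordinate of a point of the quotient
surface: the inverse image on `C₂` of the image of the point in `C₂/G`. -/
noncomputable def snd [Fintype G] (α1 : G →* (K1 ≃ₐ[k] K1)) (α2 : G →* (K2 ≃ₐ[k] K2)) :
    (quotSurf α1 α2).Pt → (Place k K2 →₀ ℤ) :=
  Quotient.lift (fun x : Place k K1 × Place k K2 => ∑ g : G, Finsupp.single (act (α2 g) x.2) 1) (by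
    rintro x _ ⟨g, rfl⟩
    exact (NN_act α2 g x.2).symm)

/-- A zero-cycle of degree zero on the quotient surface whose images in `C₁/G` and `C₂/G` are
torsion classes: a positive multiple of the inverse image in `C₁` of the image in `C₁/G` is the
divisor of a function, and similarly for `C₂`. Up to torsion this is the kernel of the map to the
Albanese variety of the surface, which is isogenous to the product of the Jacobian varieties of
`C₁/G` and `C₂/G`. -/
def AlbTrivial [CharZero k] [IsFF k K1] [IsFF k K2] [Fintype G] (α1 : G →* (K1 ≃ₐ[k] K1))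
    (α2 : G →* (K2 ≃ₐ[k] K2)) (a : (quotSurf α1 α2).Pt →₀ ℤ) : Prop :=
  (a.sum fun _ m => m) = 0 ∧
  (∃ N : ℕ, 0 < N ∧ Principal k K1 (N • a.sum fun y m => m • fst α1 α2 y)) ∧
  ∃ N : ℕ, 0 < N ∧ Principal k K2 (N • a.sum fun y m => m • snd α1 α2 y)

/-- The conclusion of the conjecture for `n` and the surface: the alternating sums of the
exterior products of `n` Albanese-trivial zero-cycles are torsion modulo rational equivalence. -/
def Vanishes [CharZero k] [IsFF k K1] [IsFF k K2] [Fintype G] (α1 : G →* (K1 ≃ₐ[k] K1))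
    (α2 : G →* (K2 ≃ₐ[k] K2)) (n : ℕ) : Prop :=
  ∀ a : Fin n → ((quotSurf α1 α2).Pt →₀ ℤ), (∀ i, AlbTrivial α1 α2 (a i)) →
    ∃ N : ℕ, 0 < N ∧ N • altSum a ∈ RatEq ((quotSurf α1 α2).pow (Fin n))

/-- The cyclic cover of `C/H` given by the character `u` of the group `H`, which acts on the curve
`C` with function field `K` by `β`: it has an equation `w ^ m = δ`, where `h w = u h * w` for `h` in
`H` and `δ` is a function on `C/H`, and the branch points, the points `v` of `C/H` where the order of
`δ` is not divisible by `m`, are the different points `b (j, 0)`, `b (j, 1)` for `j < r`, and the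
orders of `δ` at `b (j, 0)` and `b (j, 1)` are opposite modulo `m`, for all `j`. -/
def SymmetricCover {K : Type} [Field K] [Algebra k K] {H : Type} [Group H]
    (β : H →* (K ≃ₐ[k] K)) (u : H →* kˣ) (r : ℕ) : Prop :=
  ∃ (w : K) (m : ℕ) (δ : fixedField β.range) (b : Fin r × Bool → Place k (fixedField β.range)),
    w ≠ 0 ∧ 0 < m ∧ (∀ h, β h w = algebraMap k K (u h : kˣ) * w) ∧
    w ^ m = algebraMap (fixedField β.range) K δ ∧ Function.Injective b ∧
    (∀ v, (m : ℤ) ∣ v.ord δ ↔ ∀ j, b j ≠ v) ∧
    ∀ j, (m : ℤ) ∣ (b (j, false)).ord δ + (b (j, true)).ord δ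

/-- The number `d` for a character `u` of the group `H` which acts on the curve `C` by `β`: it is the
genus of `C/H` if `u` is trivial. If `u` is not trivial then it is `g - 1 + r` where `g` is the genus
of `C/H` and the cyclic cover of `C/H` given by `u` has exactly `2 r > 0` branch points, in pairs with
opposite orders. (It is the dimension of the space of differential forms on which `H` acts by
`u`.) -/
def PartBound {K : Type} [Field K] [Algebra k K] {H : Type} [Group H] (β : H →* (K ≃ₐ[k] K))
    (u : H →* kˣ) (d : ℕ) : Prop :=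
  (u = 1 ∧ HasGenus k (fixedField β.range) d) ∨
  (u ≠ 1 ∧ ∃ g r, 0 < r ∧ HasGenus k (fixedField β.range) g ∧ d + 1 = g + r ∧
    SymmetricCover β u r)

/-- The number `m` for a character and two curves: the product of the numbers `d` for the two
curves; if one of them is zero, then nothing is assumed about the other curve. -/
def PairBound {H : Type} [Group H] (β1 : H →* (K1 ≃ₐ[k] K1)) (β2 : H →* (K2 ≃ₐ[k] K2))
    (u : H →* kˣ) (m : ℕ) : Prop :=
  (∃ d1 d2, PartBound β1 u d1 ∧ PartBound β2 u d2 ∧ m = d1 * d2) ∨
  PartBound β1 u 0 ∨ PartBound β2 u 0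

end defs

section proofs

theorem ord_inv' {k L : Type} [Field k] [Field L] [Algebra k L] (v : Place k L) {f : L}
    (hf : f ≠ 0) : v.ord f⁻¹ = -v.ord f := by
  have h1 := v.ord_mul hf (inv_ne_zero hf)
  rw [mul_inv_cancel₀ hf, v.ord_one] at h1
  omega

theorem sym_inv {k : Type} [Field k] {K : Type} [Field K] [Algebra k K] {H : Type} [Group H]
    {β : H →* (K ≃ₐ[k] K)} {u : H →* kˣ} {r : ℕ} (h : SymmetricCover β u r) :
    SymmetricCover β u⁻¹ r := by
  obtain ⟨w, m, δ, b, hw0, hm, hw, hwm, hb, hB, hp⟩ := h
  have hδ : δ ≠ 0 := by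
    rintro rfl
    rw [map_zero] at hwm
    exact hw0 (pow_eq_zero_iff hm.ne' |>.1 hwm)
  refine ⟨w⁻¹, m, δ⁻¹, b, inv_ne_zero hw0, hm, ?_, ?_, hb, ?_, ?_⟩
  · intro h
    rw [map_inv₀, hw, mul_inv, MonoidHom.inv_apply, Units.val_inv_eq_inv_val, map_inv₀]
  · rw [inv_pow, hwm, map_inv₀]
  · intro v
    rw [ord_inv' v hδ, dvd_neg, hB]
  · intro j
    rw [ord_inv' _ hδ, ord_inv' _ hδ, ← neg_add, dvd_neg]
    exact hp j

theorem inv_one' {k : Type} [Field k] {H : Type} [Group H] {u : H →* kˣ} : u⁻¹ = 1 ↔ u = 1 := by
  constructor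
  · intro h
    ext x
    have := DFunLike.congr_fun h x
    rw [MonoidHom.inv_apply, MonoidHom.one_apply, inv_eq_one] at this
    rw [this, MonoidHom.one_apply]
  · rintro rfl
    ext x
    simp

theorem part_inv {k : Type} [Field k] {K : Type} [Field K] [Algebra k K] {H : Type} [Group H]
    {β : H →* (K ≃ₐ[k] K)} {u : H →* kˣ} {d : ℕ} (h : PartBound β u d) :
    PartBound β u⁻¹ d := by
  rcases h with ⟨h1, h2⟩ | ⟨h1, g, r, hr, h2, h3, h4⟩
  · exact Or.inl ⟨inv_one'.2 h1, h2⟩
  · exact Or.inr ⟨fun h => h1 (inv_one'.1 h), g, r, hr, h2, h3, sym_inv h4⟩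

variable {k : Type} [Field k] [IsAlgClosed k] [CharZero k]

/-- the cycle which is subtracted -/
noncomputable def om {K : Type} [Field K] [Algebra k K] {H : Type} [Group H] [Fintype H]
    (β : H →* (K ≃ₐ[k] K)) (u : H →* kˣ) (o : Place k K) : Place k K →₀ k :=
  haveI := Classical.dec (u = 1)
  if u = 1 then exu β u o else 0

theorem van_part {K : Type} [Field K] [Algebra k K] [IsFF k K] {H : Type} [Group H] [Fintype H]
    {β : H →* (K ≃ₐ[k] K)} {u : H →* kˣ} {d : ℕ} (hd : PartBound β u d) (o : Place k K) :
    VanK k (fun P => exu β u P - om β u o) d := by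
  classical
  rcases hd with ⟨h1, h2⟩ | ⟨h1, g, r, hr, h2, h3, w, m, δ, b, hw0, hm, hw, hwm, hb, hB, hp⟩
  · subst h1
    have h4 := van_trivK β h2 o
    unfold om
    rw [if_pos rfl]
    exact h4
  · have h4 : (fun P => exu β u P - om β u o) = exu β u := by
      funext P
      unfold om
      rw [if_neg h1, sub_zero]
    rw [h4]
    exact van_pairs β u h2 hr h3 hw0 hw hm hwm b hb hB hp

theorem van_pair {K1 K2 : Type} [Field K1] [Algebra k K1] [Field K2] [Algebra k K2] [IsFF k K1]
    [IsFF k K2] {H : Type} [Group H] [Fintype H] {β1 : H →* (K1 ≃ₐ[k] K1)}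
    {β2 : H →* (K2 ≃ₐ[k] K2)} {u : H →* kˣ} {m : ℕ} (h : PairBound β1 β2 u m) (o1 : Place k K1)
    (o2 : Place k K2) : VanPairK k (fun P => exu β1 u P - om β1 u o1)
      (fun P => exu β2 u⁻¹ P - om β2 u⁻¹ o2) m := by
  rcases h with ⟨d1, d2, h1, h2, h3⟩ | h1 | h2
  · exact Or.inl ⟨d1, d2, van_part h1 o1, van_part (part_inv h2) o2, h3⟩
  · exact Or.inr (Or.inl (van_part h1 o1))
  · exact Or.inr (Or.inr (van_part (part_inv h2) o2))

theorem om_or {K1 K2 : Type} [Field K1] [Algebra k K1] [Field K2] [Algebra k K2]
    {H : Type} [Group H] [Fintype H] (β1 : H →* (K1 ≃ₐ[k] K1))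
    (β2 : H →* (K2 ≃ₐ[k] K2)) (u : H →* kˣ) (o1 : Place k K1) (o2 : Place k K2) :
    u = 1 ∨ (om β1 u o1 = 0 ∧ om β2 u⁻¹ o2 = 0) := by
  classical
  by_cases h : u = 1
  · exact Or.inl h
  · refine Or.inr ⟨?_, ?_⟩
    · unfold om
      rw [if_neg h]
    · unfold om
      rw [if_neg fun h' => h (inv_one'.1 h')]

variable {K1 K2 : Type} [Field K1] [Algebra k K1] [Field K2] [Algebra k K2] [IsFF k K1]
  [IsFF k K2] {G : Type} [Group G] [Fintype G]

/-- From bounds for the isotypic parts to the quotient. -/
theorem lift_quot (α1 : G →* (K1 ≃ₐ[k] K1)) (α2 : G →* (K2 ≃ₐ[k] K2))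
    {J : Type} [Fintype J] (H : J → Subgroup G) [∀ j, Fintype (H j)] (u : ∀ j, H j →* kˣ)
    (c : J → k) (m : J → ℕ)
    (om1 : J → Place k K1 →₀ k) (om2 : J → Place k K2 →₀ k)
    (hom : ∀ j, u j = 1 ∨ (om1 j = 0 ∧ om2 j = 0))
    (hc : ∀ x : G, x ≠ 1 → ∑ j, c j * ∑ g : G, cfK (u j) (g * x * g⁻¹) = 0)
    (hc0 : ∑ j, c j ≠ 0)
    (hv : ∀ j, VanPairK k (fun P => exu (α1.comp (H j).subtype) (u j) P - om1 j)
      (fun P => exu (α2.comp (H j).subtype) (u j)⁻¹ P - om2 j) (m j))
    (n : ℕ) (hn : ∑ j, m j < n) : Vanishes α1 α2 n := by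
  classical
  intro a ha
  have hq : ∀ y : Quotient (orb α1 α2), ∃ x, (Quotient.mk (orb α1 α2) x) = y :=
    fun y => Quotient.exists_rep y
  choose r hr' using hq
  have hid : ∀ (K : Type) [Field K] [Algebra k K] [IsFF k K] {f : K}, f ≠ 0 →
      divisor k f ∈ RatEq (curve k K) := by
    intro K _ _ _ f hf
    have hid : (curve k K).IsMor K (fun P => P) :=
      Or.inr ⟨AlgHom.id k K, fun P => ⟨1, one_pos, fun g => by simp⟩⟩
    have h5 := mem_ratEq (X := curve k K) (L := K) hid hf
    have h6 : Finsupp.mapDomain (fun P : Place k K => P) (divisor k f) = divisor k f :=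
      Finsupp.mapDomain_id
    rwa [h6] at h5
  have h3 := quot_altK α1 α2 H u c om1 om2 m hom hc hc0 hv hn
    (Quotient.mk (orb α1 α2)) (by
      intro g s t
      exact (Quotient.sound (s := orb α1 α2) (show (orb α1 α2).r (s, t) _ from ⟨g, rfl⟩)).symm)
    (fun i => Finsupp.mapDomain r (a i)) (by
      intro i
      have h4 := (ha i).1
      change (Finsupp.mapDomain r (a i)).sum (fun _ m => m) = 0
      rw [Finsupp.sum_mapDomain_index (fun _ => rfl) (fun _ _ _ => rfl)]
      exact h4) (by
      intro i
      obtain ⟨N, hN, f, hf, h4⟩ := (ha i).2.1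
      refine ⟨N, hN, ?_⟩
      have h5 : ppa α1 (Finsupp.mapDomain r (a i)) = (a i).sum fun y m => m • fst α1 α2 y := by
        change Finsupp.linearCombination ℤ (fun x : Place k K1 × Place k K2 => NN α1 x.1)
          (Finsupp.mapDomain r (a i)) = _
        rw [Finsupp.linearCombination_mapDomain, Finsupp.linearCombination_apply]
        refine Finsupp.sum_congr fun y _ => ?_
        congr 1
        conv_rhs => rw [← hr' y]
        rfl
      rw [h5, h4]
      exact hid K1 hf) (by
      intro i
      obtain ⟨N, hN, f, hf, h4⟩ := (ha i).2.2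
      refine ⟨N, hN, ?_⟩
      have h5 : ppb α2 (Finsupp.mapDomain r (a i)) = (a i).sum fun y m => m • snd α1 α2 y := by
        change Finsupp.linearCombination ℤ (fun x : Place k K1 × Place k K2 => NN α2 x.2)
          (Finsupp.mapDomain r (a i)) = _
        rw [Finsupp.linearCombination_mapDomain, Finsupp.linearCombination_apply]
        refine Finsupp.sum_congr fun y _ => ?_
        congr 1
        conv_rhs => rw [← hr' y]
        rfl
      rw [h5, h4]
      exact hid K2 hf)
  have h4 : (fun i => Finsupp.mapDomain (Quotient.mk (orb α1 α2)) (Finsupp.mapDomain r (a i))) =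
      a := by
    funext i
    rw [← Finsupp.mapDomain_comp]
    have : (Quotient.mk (orb α1 α2)) ∘ r = id := funext hr'
    rw [this, Finsupp.mapDomain_id]
  rw [h4] at h3
  exact h3

omit [IsAlgClosed k] [CharZero k] in
theorem exu_top {K : Type} [Field K] [Algebra k K] (α : G →* (K ≃ₐ[k] K)) (χ : G →* kˣ)
    [Fintype (⊤ : Subgroup G)] (P : Place k K) :
    exu (α.comp (⊤ : Subgroup G).subtype) (χ.comp (⊤ : Subgroup G).subtype) P = exu α χ P := by
  unfold exu
  exact Fintype.sum_equiv Subgroup.topEquiv.toEquiv _ _ fun _ => rfl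

theorem char_sum (hG : ∀ x y : G, x * y = y * x) [Fintype (G →* kˣ)] {x : G} (hx : x ≠ 1) :
    ∑ χ : G →* kˣ, ((χ x : kˣ) : k) = 0 := by
  let _ : CommGroup G := { ‹Group G› with mul_comm := hG }
  obtain ⟨χ0, h0⟩ := CommGroup.exists_apply_ne_one_of_hasEnoughRootsOfUnity G k hx
  have h2 : ∑ χ : G →* kˣ, ((χ x : kˣ) : k) = ∑ χ : G →* kˣ, (((χ0 * χ) x : kˣ) : k) :=
    (Fintype.sum_equiv (Equiv.mulLeft χ0) _ _ fun χ => rfl).symm
  have h3 : ∑ χ : G →* kˣ, (((χ0 * χ) x : kˣ) : k) =
      ((χ0 x : kˣ) : k) * ∑ χ : G →* kˣ, ((χ x : kˣ) : k) := by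
    rw [Finset.mul_sum]
    refine Finset.sum_congr rfl fun χ _ => ?_
    rw [MonoidHom.mul_apply, Units.val_mul]
  rw [h3] at h2
  have h4 : (1 - ((χ0 x : kˣ) : k)) * ∑ χ : G →* kˣ, ((χ x : kˣ) : k) = 0 := by
    rw [sub_mul, one_mul, ← h2, sub_self]
  refine (mul_eq_zero.1 h4).resolve_left fun h5 => h0 ?_
  ext
  rw [Units.val_one]
  exact (sub_eq_zero.1 h5).symm

theorem char_finite (hG : ∀ x y : G, x * y = y * x) : Finite (G →* kˣ) := by
  let _ : CommGroup G := { ‹Group G› with mul_comm := hG }
  obtain ⟨e⟩ := CommGroup.monoidHom_mulEquiv_of_hasEnoughRootsOfUnity G k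
  exact Finite.of_equiv G e.symm.toEquiv

end proofs

/-- Voisin's conjecture, with rational coefficients, for quotients of products of two curves by
finite groups: isotypic parts for characters of arbitrary order. -/
theorem result {k : Type} [Field k] [IsAlgClosed k] [CharZero k] (K1 K2 : Type) [Field K1]
    [Algebra k K1] [IsFF k K1] [Field K2] [Algebra k K2] [IsFF k K2] (G : Type) [Group G]
    [Fintype G] (α1 : G →* (K1 ≃ₐ[k] K1)) (α2 : G →* (K2 ≃ₐ[k] K2)) :
    (∀ (J : Type) [Fintype J] (H : J → Subgroup G) (u : ∀ j, H j →* kˣ) (c : J → k)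
      (m : J → ℕ),
      (∀ x : G, x ≠ 1 → ∑ j, c j * ∑ g : G, cfK (u j) (g * x * g⁻¹) = 0) →
      ∑ j, c j ≠ 0 →
      (∀ j, PairBound (α1.comp (H j).subtype) (α2.comp (H j).subtype) (u j) (m j)) →
      ∀ n : ℕ, ∑ j, m j < n → Vanishes α1 α2 n) ∧
    ((∀ x y : G, x * y = y * x) → Finite (G →* kˣ) ∧ ∀ m : (G →* kˣ) → ℕ,
      (∀ χ : G →* kˣ, PairBound α1 α2 χ (m χ)) →
      ∀ n : ℕ, ∑ᶠ χ, m χ < n → Vanishes α1 α2 n) := by
  classical
  obtain ⟨o1, -⟩ := exists_place (k := k) (K := K1)
  obtain ⟨o2, -⟩ := exists_place (k := k) (K := K2)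
  refine ⟨?_, ?_⟩
  · intro J _ H u c m hc hc0 h n hn
    have hf : ∀ j, Fintype (H j) := fun j => Fintype.ofFinite _
    exact lift_quot α1 α2 H u c m (fun j => om (α1.comp (H j).subtype) (u j) o1)
      (fun j => om (α2.comp (H j).subtype) (u j)⁻¹ o2) (fun j => om_or _ _ _ _ _) hc hc0
      (fun j => van_pair (h j) o1 o2) n hn
  · intro hG
    refine ⟨char_finite hG, fun m h n hn => ?_⟩
    have : Finite (G →* kˣ) := char_finite hG
    have : Fintype (G →* kˣ) := Fintype.ofFinite _
    have hf : Fintype (⊤ : Subgroup G) := Fintype.ofFinite _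
    rw [finsum_eq_sum_of_fintype] at hn
    refine lift_quot α1 α2 (fun _ : G →* kˣ => ⊤) (fun χ => χ.comp (⊤ : Subgroup G).subtype)
      (fun _ => 1) m (fun χ => om α1 χ o1) (fun χ => om α2 χ⁻¹ o2) ?_ ?_ ?_ ?_ n hn
    · intro χ
      rcases om_or α1 α2 χ o1 o2 with h1 | h1
      · left
        rw [h1]
        rfl
      · exact Or.inr h1
    · intro x hx
      have h3 : ∀ χ : G →* kˣ, (1 : k) * ∑ g : G,
          cfK (χ.comp (⊤ : Subgroup G).subtype) (g * x * g⁻¹) =
          Fintype.card G * ((χ x : kˣ) : k) := by
        intro χ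
        rw [one_mul]
        have h4 : ∀ g : G, cfK (χ.comp (⊤ : Subgroup G).subtype) (g * x * g⁻¹) =
            ((χ x : kˣ) : k) := by
          intro g
          unfold cfK
          rw [dif_pos (Subgroup.mem_top _)]
          change ((χ (g * x * g⁻¹) : kˣ) : k) = _
          rw [map_mul, map_mul, map_inv, mul_right_comm, mul_inv_cancel, one_mul]
        rw [Finset.sum_congr rfl fun g _ => h4 g, Finset.sum_const, Finset.card_univ,
          nsmul_eq_mul]
      rw [Finset.sum_congr rfl fun χ _ => h3 χ, ← Finset.mul_sum, char_sum hG hx, mul_zero]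
    · rw [Finset.sum_const, Finset.card_univ, nsmul_eq_mul, mul_one]
      have : 0 < Fintype.card (G →* kˣ) := Fintype.card_pos
      exact_mod_cast this.ne'
    · intro χ
      have h1 := van_pair (h χ) o1 o2
      have h2 : ∀ P, exu (α1.comp (⊤ : Subgroup G).subtype)
          (χ.comp (⊤ : Subgroup G).subtype) P = exu α1 χ P := exu_top α1 χ
      have h3 : ∀ P, exu (α2.comp (⊤ : Subgroup G).subtype)
          (χ.comp (⊤ : Subgroup G).subtype)⁻¹ P = exu α2 χ⁻¹ P := exu_top α2 χ⁻¹
      simp only [h2, h3]
      exact h1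

end Pool.Agent.Results.MP_83b46e_ag.AbelianQuotients
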