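import Pool.Agent.J4.H70.ZV.G

/-!
# MP_83b46e_ag: Voisin's conjecture for mixed quotients of the square of a curve

Let `A ≠ 1` be an elementary abelian 2-group of automorphisms of a smooth projective curve `C`, and
let `Γ` be a group of automorphisms of the surface `C × C` which contains exchanges of the two
factors and whose other elements act on each factor by the elements of `A`, faithfully. After a
change of the coordinates on one factor `Γ` is generated by the automorphisms
`(x, y) ↦ (a x, φ(a) y)` for `a` in `A` and `(x, y) ↦ (y, e x)`, where `φ` is an automorphism of `A`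
with `φ² = 1` and `e` is an element of `A` with `φ(e) = e`. We prove Voisin's conjecture with rational
coefficients for the surfaces `S = (C × C) / Γ`, with the bound `p_g(S)`, for curves of arbitrary
genus with an arbitrary quotient `C / A`, if the double covers which contribute to `p_g(S)` have
branch points or `C / A` has a function of degree two: if `n > p_g(S)` and `a 1`, ..., `a n` are
zero-cycles on `S` of degree zero with torsion image in the Albanese variety, then the alternating
sum of the exterior products of these cycles is torsion in `CH₀(S ^ n)`. (For `A = 1` the surface is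
the symmetric square of `C`; this is the theorem of a teammate in the file SymmetricSquares and is
excluded here. The quotients by groups without exchanges are in the file PrymQuotients.)

Examples: the quotients `Sym²(C) / A` of symmetric squares (`φ = 1`, `e = 1`); mixed surfaces which
are isogenous to a product, such as the quotients by the cyclic group of order four generated by
`(x, y) ↦ (y, e x)` for an involution `e` without fixed points on a curve of genus three (surfaces of
general type with `p_g = q = 2`).

Let `d χ` be the multiplicity of the character `χ` of `A` in the space of the differentials of the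
first kind on `C`: the genus of `C / A` for `χ = 1`, and the dimension of the Prym variety of
`C / ker χ → C / A` otherwise. The geometric genus of `S` is the sum of `d χ * d (χ ∘ φ)` over the
unordered pairs of characters `χ, χ ∘ φ` with `χ ∘ φ ≠ χ`, and of `d χ * (d χ - 1) / 2` (if `χ e = 1`) or
`d χ * (d χ + 1) / 2` (if `χ e = -1`) over the characters `χ` with `χ ∘ φ = χ`.

Method: a functional on the zero-cycles of `S ^ n` is expanded into the isotypic parts for the `2 n`
coordinates. This gives functions on the symmetric group of the `2 n` coordinates which are killed by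
the symmetrization of `d χ + 1` coordinates with the character `χ`, and which have the symmetries of
the wreath product of `Γ` with the symmetric group of the `n` factors. By a combinatorial form of the
second fundamental theorem of invariant theory such a function is zero if for each colouring of the
coordinates by pairs `(χ, i)` with `i < d χ` there is a symmetry with the wrong sign; for
`n > p_g(S)` it exists by the pigeonhole principle. The symmetrizations are zero by Bloch's argument
and its versions for Prym varieties of teammates (files ProductsOfCurves, PrymQuotients).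
-/

set_option autoImplicit false

open FF IntermediateField

namespace Pool.Agent.Results.MP_83b46e_ag.MixedQuotients

open Pool.Agent.J4.H17.ZC Pool.Agent.J4.H82.PV Pool.Agent.J4.H70.ZV

section defs

variable {k : Type} [Field k] {K : Type} [Field K] [Algebra k K] {A : Type} [Group A]

/-- The relation between pairs of points of the curve which generates the equivalence relation
given by the orbits of the group `Γ` of automorphisms of the square of the curve which is generated
by the automorphisms `(x, y) ↦ (a x, φ(a) y)` and `(x, y) ↦ (y, e x)`. -/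
def orb (α : A →* (K ≃ₐ[k] K)) (φ : A →* A) (e : A) (x y : Place k K × Place k K) : Prop :=
  (∃ a, y = (act (α a) x.1, act (α (φ a)) x.2)) ∨ y = (x.2, act (α e) x.1)

/-- The quotient of the square of the curve by the group `Γ`. -/
def mixedSurf (α : A →* (K ≃ₐ[k] K)) (φ : A →* A) (e : A) : Var k :=
  ((curve k K).prod (curve k K)).quot (Quot.mk (orb α φ e))

/-- The sum of the images under `A` of the two coordinates of a point of the quotient surface: the
inverse image on the curve `C` of the sum of the images of the two coordinates in `C / A`. -/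
noncomputable def pairDiv [Fintype A] (α : A →* (K ≃ₐ[k] K)) (φ : A →* A) (e : A) :
    (mixedSurf α φ e).Pt → (Place k K →₀ ℤ) :=
  Quot.lift (fun x : Place k K × Place k K =>
    (∑ a : A, Finsupp.single (act (α a) x.1) 1) + ∑ a : A, Finsupp.single (act (α a) x.2) 1) (by
    rintro x _ (⟨a, rfl⟩ | rfl)
    · exact congrArg₂ (· + ·) (NN_act α a x.1).symm (NN_act α (φ a) x.2).symm
    · exact (add_comm _ _).trans (congrArg₂ (· + ·) rfl (NN_act α e x.1).symm))

/-- A zero-cycle of degree zero on the quotient surface such that the sum of the images of the two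
coordinates is a torsion class in the Picard group of `C / A`: a positive multiple of its inverse
image on `C` is the divisor of a function. Up to torsion this is the kernel of the map to the
Albanese variety of the surface, which is isogenous to the Jacobian variety of `C / A`. -/
def AlbTrivial [CharZero k] [IsFF k K] [Fintype A] (α : A →* (K ≃ₐ[k] K)) (φ : A →* A)
    (e : A) (a : (mixedSurf α φ e).Pt →₀ ℤ) : Prop :=
  (a.sum fun _ m => m) = 0 ∧
  ∃ N : ℕ, 0 < N ∧ Principal k K (N • a.sum fun y m => m • pairDiv α φ e y)

/-- The conclusion of the conjecture for `n` and the surface: the alternating sums of the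
exterior products of `n` Albanese-trivial zero-cycles are torsion modulo rational equivalence. -/
def Vanishes [CharZero k] [IsFF k K] [Fintype A] (α : A →* (K ≃ₐ[k] K)) (φ : A →* A)
    (e : A) (n : ℕ) : Prop :=
  ∀ a : Fin n → ((mixedSurf α φ e).Pt →₀ ℤ), (∀ i, AlbTrivial α φ e (a i)) →
    ∃ N : ℕ, 0 < N ∧ N • altSum a ∈ RatEq ((mixedSurf α φ e).pow (Fin n))

/-- The curve with function field `L` has a function of degree two: it is a rational curve, a curve of
genus one or a hyperelliptic curve. -/
def DegreeTwo (k L : Type) [Field k] [Field L] [Algebra k L] : Prop :=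
  ∃ t : L, Transcendental k t ∧ Module.finrank k⟮t⟯ L = 2

/-- Twice the geometric genus of the quotient surface, if `d χ` is the multiplicity of the character
`χ` in the space of the differentials of the first kind. -/
noncomputable def twicePg (φ : A →* A) (e : A) (d : (A →* ℤˣ) → ℕ) : ℤ :=
  (∑ᶠ χ : A →* ℤˣ, ((d χ : ℤ) * d (χ.comp φ))) -
    ∑ᶠ χ ∈ {χ : A →* ℤˣ | χ.comp φ = χ}, ((χ e : ℤˣ) : ℤ) * d χ

end defs

section aux

variable {A : Type} [Group A]

theorem mem_gr {φ : A →* A} {z : A × A} : z ∈ φ.graph ↔ φ z.1 = z.2 := MonoidHom.mem_graph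

theorem triv_iff {φ : A →* A} (hφ : ∀ a, φ (φ a) = a) (χ ψ : A →* ℤˣ) :
    (∀ z ∈ φ.graph, χ z.1 * ψ z.2 = 1) ↔ ψ = χ.comp φ := by
  have hu : ∀ x y : ℤˣ, x * y = 1 → y = x := by decide
  constructor
  · intro h
    ext a
    have h1 := h (φ a, a) (mem_gr.2 (hφ a))
    rw [hu _ _ h1]
    rfl
  · rintro rfl z hz
    rw [← mem_gr.1 hz, MonoidHom.comp_apply, hφ, Int.units_mul_self]

end aux

/-- Voisin's conjecture, with rational coefficients, for the quotients of the square of a curve by
groups which contain exchanges of the factors, and whose other elements form a nontrivial elementary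
abelian 2-group which acts faithfully on both factors. -/
theorem result {k : Type} [Field k] [IsAlgClosed k] [CharZero k] (K : Type) [Field K]
    [Algebra k K] [IsFF k K] (A : Type) [Group A] [Fintype A] (_hA1 : Nontrivial A)
    (hA : ∀ x : A, x * x = 1) (α : A →* (K ≃ₐ[k] K)) (_hα : Function.Injective α) (φ : A →* A)
    (hφ : ∀ a, φ (φ a) = a) (e : A) (he : φ e = e) (d : (A →* ℤˣ) → ℕ)
    (h1 : HasGenus k (fixedField α.range) (d 1))
    (hd : ∀ χ, χ ≠ 1 → HasGenus k (fixedField (χ.ker.map α)) (d 1 + d χ))
    (hr : ∀ χ : A →* ℤˣ, χ ≠ 1 → d χ * d (χ.comp φ) ≠ 0 →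
      DegreeTwo k (fixedField α.range) ∨
        ∃ (h : A) (P : Place k K), χ h = -1 ∧ act (α h) P = P)
    (n : ℕ) (hn : twicePg φ e d < 2 * n) : Vanishes α φ e n := by
  classical
  intro a ha
  obtain ⟨o, -⟩ := exists_place (k := k) (K := K)
  have : Finite (A →* ℤˣ) := inferInstance
  have : Fintype (A →* ℤˣ) := Fintype.ofFinite _
  have hcc : ∀ χ : A →* ℤˣ, (χ.comp φ).comp φ = χ := by
    intro χ
    ext a
    change ((χ (φ (φ a)) : ℤˣ) : ℤ) = _
    rw [hφ]
  -- the bounds
  let d' : (A →* ℤˣ) → ℕ := fun χ => if χ = 1 then d 1 else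
    if d χ * d (χ.comp φ) ≠ 0 ∨ d χ = 0 then d χ else d 1 + d χ
  have hv : ∀ χ, Van k (op α o χ) (d' χ) := by
    intro χ
    have h5 : Fintype χ.ker := Fintype.ofFinite _
    have hr2 : (α.comp χ.ker.subtype).range = χ.ker.map α := by
      rw [MonoidHom.range_comp, Subgroup.range_subtype]
    by_cases hχ : χ = 1
    · subst hχ
      have h4 := van_one α h1 o
      have h6 : d' 1 = d 1 := if_pos rfl
      rw [h6]
      have h7 : op α o 1 = fun P => ex α 1 P - ex α 1 o := by
        funext P
        unfold op
        rw [om_one, ex_one, ex_one]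
      rw [h7]
      exact h4
    · have h7 : op α o χ = ex α χ := by
        funext P
        unfold op
        rw [om_ne α o hχ, sub_zero]
      rw [h7]
      by_cases h8 : d χ * d (χ.comp φ) ≠ 0 ∨ d χ = 0
      · have h6 : d' χ = d χ := by
          change (if χ = 1 then d 1 else _) = _
          rw [if_neg hχ, if_pos h8]
        rw [h6]
        rcases h8 with h10 | h9
        · rcases hr χ hχ h10 with ⟨t, ht, ht2⟩ | ⟨h, P, hh, hP⟩
          · exact van_char_hyper α χ h1 (by rw [hr2]; exact hd χ hχ) hχ ht ht2
          · exact van_char α χ h1 (by rw [hr2]; exact hd χ hχ) hh hP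
        · rw [h9]
          refine van_char_zero α χ h1 ?_ hχ
          have := hd χ hχ
          rw [h9, add_zero] at this
          rw [hr2]
          exact this
      · have h6 : d' χ = d 1 + d χ := by
          change (if χ = 1 then d 1 else _) = _
          rw [if_neg hχ, if_neg h8]
        rw [h6]
        exact van_ker α χ (by rw [hr2]; exact hd χ hχ) hχ
  -- the sums
  have hdd : ∀ χ, d' χ * d' (χ.comp φ) = d χ * d (χ.comp φ) := by
    intro χ
    by_cases h0 : d χ * d (χ.comp φ) = 0
    · have key : ∀ χ, d χ = 0 → d' χ = 0 := by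
        intro χ h2
        change (if χ = 1 then d 1 else _) = _
        by_cases h3 : χ = 1
        · rw [if_pos h3, ← h3, h2]
        · rw [if_neg h3, if_pos (Or.inr h2), h2]
      rw [h0]
      rcases Nat.mul_eq_zero.1 h0 with h2 | h2
      · rw [key χ h2, zero_mul]
      · rw [key _ h2, mul_zero]
    · have key : ∀ χ, d χ * d (χ.comp φ) ≠ 0 → d' χ = d χ := by
        intro χ h3
        change (if χ = 1 then d 1 else _) = _
        by_cases h4 : χ = 1
        · rw [if_pos h4, h4]
        · rw [if_neg h4, if_pos (Or.inl h3)]
      rw [key χ h0, key (χ.comp φ) (by rw [hcc, mul_comm]; exact h0)]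
  have hdd2 : ∀ χ : A →* ℤˣ, χ.comp φ = χ → d' χ = d χ := by
    intro χ h
    change (if χ = 1 then d 1 else _) = _
    by_cases h4 : χ = 1
    · rw [if_pos h4, h4]
    · rw [if_neg h4, if_pos]
      by_cases h5 : d χ = 0
      · exact Or.inr h5
      · left
        rw [h]
        exact Nat.mul_ne_zero h5 h5
  have hcount : (QQ d' fun χ ψ : A →* ℤˣ => ∀ z ∈ φ.graph, χ z.1 * ψ z.2 = 1).card +
      (RR' d' (fun χ ψ : A →* ℤˣ => ∀ z ∈ φ.graph, χ z.1 * ψ z.2 = 1)
        fun χ => ¬ χ e = 1).card < 2 * n +
      (RR' d' (fun χ ψ : A →* ℤˣ => ∀ z ∈ φ.graph, χ z.1 * ψ z.2 = 1)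
        fun χ => χ e = 1).card := by
    rw [card_QQ, card_RR', card_RR']
    unfold twicePg at hn
    have e1 : ∑ x ∈ (Finset.univ : Finset ((A →* ℤˣ) × (A →* ℤˣ))).filter (fun x =>
          ∀ z ∈ φ.graph, x.1 z.1 * x.2 z.2 = 1), d' x.1 * d' x.2 =
        ∑ χ : A →* ℤˣ, d χ * d (χ.comp φ) := by
      symm
      refine Finset.sum_bij (fun χ _ => (χ, χ.comp φ)) ?_ ?_ ?_ ?_
      · intro χ _
        rw [Finset.mem_filter]
        exact ⟨Finset.mem_univ _, (triv_iff hφ _ _).2 rfl⟩
      · intro χ _ ψ _ h
        exact congrArg Prod.fst h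
      · intro x hx
        rw [Finset.mem_filter] at hx
        exact ⟨x.1, Finset.mem_univ _, Prod.ext rfl ((triv_iff hφ _ _).1 hx.2).symm⟩
      · intro χ _
        exact (hdd χ).symm
    have e2 : ∀ χ : A →* ℤˣ, (∀ z ∈ φ.graph, χ z.1 * χ z.2 = 1) ↔ χ.comp φ = χ := fun χ =>
      (triv_iff hφ χ χ).trans eq_comm
    have e3 : {χ : A →* ℤˣ | χ.comp φ = χ} =
        ↑((Finset.univ : Finset (A →* ℤˣ)).filter fun χ => χ.comp φ = χ) := by
      ext x
      simp
    rw [finsum_eq_sum_of_fintype, e3, finsum_mem_coe_finset,
      ← Finset.sum_filter_add_sum_filter_not ((Finset.univ : Finset (A →* ℤˣ)).filter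
        fun χ => χ.comp φ = χ) (fun χ => χ e = 1), Finset.filter_filter,
      Finset.filter_filter] at hn
    have e4 : ∑ χ ∈ (Finset.univ : Finset (A →* ℤˣ)).filter
        (fun χ => χ.comp φ = χ ∧ χ e = 1), ((χ e : ℤˣ) : ℤ) * (d χ : ℤ) =
        ((∑ χ ∈ (Finset.univ : Finset (A →* ℤˣ)).filter
        (fun χ => (∀ z ∈ φ.graph, χ z.1 * χ z.2 = 1) ∧ χ e = 1), d' χ : ℕ) : ℤ) := by
      push_cast
      simp only [e2]
      refine Finset.sum_congr rfl fun χ hχ => ?_
      have h3 := (Finset.mem_filter.1 hχ).2
      rw [h3.2, Units.val_one, one_mul, hdd2 χ h3.1]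
    have e5 : ∑ χ ∈ (Finset.univ : Finset (A →* ℤˣ)).filter
        (fun χ => χ.comp φ = χ ∧ ¬ χ e = 1), ((χ e : ℤˣ) : ℤ) * (d χ : ℤ) =
        -((∑ χ ∈ (Finset.univ : Finset (A →* ℤˣ)).filter
        (fun χ => (∀ z ∈ φ.graph, χ z.1 * χ z.2 = 1) ∧ ¬ χ e = 1), d' χ : ℕ) : ℤ) := by
      push_cast
      rw [← Finset.sum_neg_distrib]
      simp only [e2]
      refine Finset.sum_congr rfl fun χ hχ => ?_
      have h3 := (Finset.mem_filter.1 hχ).2
      rw [(Int.units_eq_one_or (χ e)).resolve_left h3.2, hdd2 χ h3.1]
      simp
    have e6 : ∑ χ : A →* ℤˣ, ((d χ : ℤ) * d (χ.comp φ)) =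
        ((∑ χ : A →* ℤˣ, d χ * d (χ.comp φ) : ℕ) : ℤ) := by
      push_cast
      rfl
    rw [e4, e5, e6] at hn
    rw [e1]
    omega
  exact main_gen α o (Quot.mk (orb α φ e)) (fun y => Quot.exists_rep y) (pairDiv α φ e)
    (fun _ => rfl) hA φ.graph e (fun x hx => mem_gr.2 (by rw [← mem_gr.1 hx, hφ]))
    (mem_gr.2 he) (fun a => ⟨φ a, mem_gr.2 rfl⟩)
    (fun z hz x => (Quot.sound (r := orb α φ e) (Or.inl ⟨z.1, by rw [mem_gr.1 hz]⟩)).symm)
    (fun x => (Quot.sound (r := orb α φ e) (Or.inr rfl)).symm) hv hcount a
    (fun i => (ha i).1) (fun i => (ha i).2)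

end Pool.Agent.Results.MP_83b46e_ag.MixedQuotients
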