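import Pool.Agent.J4.H82.PV.Q

/-!
# MP_83b46e_ag: Voisin's conjecture for quotients of products of two curves, Prym varieties

Let `G` be a finite group acting on two smooth projective curves `C₁`, `C₂` (of arbitrary genera, and
with arbitrary quotients), and let `S = (C₁ × C₂)/G` be the quotient by the diagonal action.

Part 2. Let all elements of `G` have order at most two, and let `g₁`, `g₂` be the genera of `C₁/G`,
`C₂/G`. For a nontrivial character `χ` of `G` let `p₁ χ` be the difference of the genera of
`C₁/ker χ` and `C₁/G`, the dimension of the Prym variety of this double cover, similarly for `C₂`.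
If `p₁ χ * p₂ χ ≠ 0` then we assume for each of the two curves that the double cover has branch
points (an element with `χ h = -1` has a fixed point) or that the quotient by `G` is rational, of
genus one or hyperelliptic. Then Voisin's conjecture with rational coefficients is true for `S`: the
geometric genus is `g₁ * g₂ + ∑ p₁ χ * p₂ χ`, and if `n` is greater then the alternating sum of
`a 1 × ... × a n` on `S ^ n` is zero in the Chow group with rational coefficients, for all
zero-cycles `a 1`, ..., `a n` of degree zero on `S` which are zero in the Albanese variety. The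
assumption is satisfied for example if `G` is generated by elements with fixed points on `C₁` and
also by elements with fixed points on `C₂`; the genera of `C₁/G` and `C₂/G` are then arbitrary.

Part 1. Let `G` be an arbitrary finite group. Let `H j` be subgroups of `G`, `χ j` homomorphisms from
`H j` to `{1, -1}` and `c j` integers with sum not zero such that the combination
`∑ c j |H j| Ind (χ j)` of induced characters is a multiple of the regular character of `G`. Let
`d₁ j`, `d₂ j` be the genera of `C/H j` if `χ j = 1` and the dimensions of the Prym varieties as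
above for the double covers from `C/ker (χ j)` to `C/H j` otherwise (or, if neither of the two
conditions is satisfied, the genus of `C/ker (χ j)`). If `n > ∑ d₁ j * d₂ j` then the same
conclusion holds. The bound is again the geometric genus if the induced characters are the
different irreducible characters and `c j` are their degrees, for example for the dihedral group of
order `8`.

The results for quotients with `C₁/G`, `C₂/G` rational and double covers of rational curves are in
the file RationalQuotients of a teammate, whose reduction we use.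

The new ingredients are vanishing theorems for a double cover `C → D` of curves with involution `τ`:
if `p` is the difference of the genera, the symmetrization of the exterior product
`(x₀ - τ x₀) × ... × (x_p - τ x_p)` is torsion in `CH₀(C ^ (p + 1))`, if there are branch points
(`vanish_odd`) or if `D` has a function of degree two (`hyper`). Proof in the first case. Let
`D` have genus `g'` and let there be `2 r` branch points, so `p = g' - 1 + r`. By the theorem of
Riemann the space `L(E)` for the divisor `E` of the images of `x₀, ..., x_p` has dimension at least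
`r + 1`, so that it contains a nonconstant function `h` with equal values at the points of each of
`r - 1` pairs of branch points. If `δ` is a function on `D` whose square root generates the
function field of `C`, then the norm of `δ` for `h : D → P¹` has, up to a square, zeros only at the
values `c`, `c'` of `h` at the remaining two branch points. So a choice of the signs of the products
over the fibres of `h`, which contain the given product, is a function on the double cover of `P¹`
branched at `c`, `c'`, a rational curve, and the product is zero over `c`. In the second case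
without branch points the anti-invariant part of the curve `C` is the sum of the anti-invariant
parts of two other double covers of the projective line.
-/

set_option autoImplicit false

open FF IntermediateField

namespace Pool.Agent.Results.MP_83b46e_ag.PrymQuotients

open Pool.Agent.J4.H17.ZC Pool.Agent.J4.H82.PV

section defs

variable {k : Type} [Field k] {K1 K2 : Type} [Field K1] [Algebra k K1] [Field K2] [Algebra k K2]
  {G : Type} [Group G]

/-- Two pairs of points are equivalent if they are in the same orbit of the diagonal action of the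
group `G`, which acts on the two curves by `α1` and `α2`. -/
def orb (α1 : G →* (K1 ≃ₐ[k] K1)) (α2 : G →* (K2 ≃ₐ[k] K2)) :
    Setoid (Place k K1 × Place k K2) where
  r x y := ∃ g : G, y = (act (α1 g) x.1, act (α2 g) x.2)
  iseqv :=
    { refl := fun x => ⟨1, by rw [map_one, map_one, act_one, act_one]⟩
      symm := by
        rintro x y ⟨g, rfl⟩
        refine ⟨g⁻¹, ?_⟩
        change x = (act (α1 g⁻¹) (act (α1 g) x.1), act (α2 g⁻¹) (act (α2 g) x.2))
        rw [← act_mul, ← act_mul, ← map_mul, ← map_mul, inv_mul_cancel, map_one, map_one, act_one,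
          act_one]
      trans := by
        rintro x y z ⟨g, rfl⟩ ⟨h, rfl⟩
        refine ⟨h * g, ?_⟩
        rw [map_mul, map_mul, act_mul, act_mul] }

/-- The quotient of the product of the two curves by the diagonal action of the group. -/
def quotSurf (α1 : G →* (K1 ≃ₐ[k] K1)) (α2 : G →* (K2 ≃ₐ[k] K2)) : Var k :=
  ((curve k K1).prod (curve k K2)).quot (Quotient.mk (orb α1 α2))

/-- The sum of the images under the group of the first coordinate of a point of the quotient
surface: the inverse image on `C₁` of the image of the point in `C₁/G`. -/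
noncomputable def fst [Fintype G] (α1 : G →* (K1 ≃ₐ[k] K1)) (α2 : G →* (K2 ≃ₐ[k] K2)) :
    (quotSurf α1 α2).Pt → (Place k K1 →₀ ℤ) :=
  Quotient.lift (fun x : Place k K1 × Place k K2 => ∑ g : G, Finsupp.single (act (α1 g) x.1) 1) (by
    rintro x _ ⟨g, rfl⟩
    exact (NN_act α1 g x.1).symm)

/-- The sum of the images under the group of the second coordinate of a point of the quotient
surface: the inverse image on `C₂` of the image of the point in `C₂/G`. -/
noncomputable def snd [Fintype G] (α1 : G →* (K1 ≃ₐ[k] K1)) (α2 : G →* (K2 ≃ₐ[k] K2)) :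
    (quotSurf α1 α2).Pt → (Place k K2 →₀ ℤ) :=
  Quotient.lift (fun x : Place k K1 × Place k K2 => ∑ g : G, Finsupp.single (act (α2 g) x.2) 1) (by
    rintro x _ ⟨g, rfl⟩
    exact (NN_act α2 g x.2).symm)

/-- A zero-cycle of degree zero on the quotient surface whose images in `C₁/G` and `C₂/G` are
torsion classes: a positive multiple of the inverse image in `C₁` of the image in `C₁/G` is the
divisor of a function, and similarly for `C₂`. Up to torsion this is the kernel of the map to the
Albanese variety of the surface, which is isogenous to the product of the Jacobian varieties of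
`C₁/G` and `C₂/G`. -/
def AlbTrivial [CharZero k] [IsFF k K1] [IsFF k K2] [Fintype G] (α1 : G →* (K1 ≃ₐ[k] K1))
    (α2 : G →* (K2 ≃ₐ[k] K2)) (a : (quotSurf α1 α2).Pt →₀ ℤ) : Prop :=
  (a.sum fun _ m => m) = 0 ∧
  (∃ N : ℕ, 0 < N ∧ Principal k K1 (N • a.sum fun y m => m • fst α1 α2 y)) ∧
  ∃ N : ℕ, 0 < N ∧ Principal k K2 (N • a.sum fun y m => m • snd α1 α2 y)

/-- The conclusion of the conjecture for `n` and the surface: the alternating sums of the
exterior products of `n` Albanese-trivial zero-cycles are torsion modulo rational equivalence. -/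
def Vanishes [CharZero k] [IsFF k K1] [IsFF k K2] [Fintype G] (α1 : G →* (K1 ≃ₐ[k] K1))
    (α2 : G →* (K2 ≃ₐ[k] K2)) (n : ℕ) : Prop :=
  ∀ a : Fin n → ((quotSurf α1 α2).Pt →₀ ℤ), (∀ i, AlbTrivial α1 α2 (a i)) →
    ∃ N : ℕ, 0 < N ∧ N • altSum a ∈ RatEq ((quotSurf α1 α2).pow (Fin n))

/-- The curve with function field `L` has a function of degree two: it is a rational curve, a curve of
genus one or a hyperelliptic curve. -/
def DegreeTwo (k L : Type) [Field k] [Field L] [Algebra k L] : Prop :=
  ∃ t : L, Transcendental k t ∧ Module.finrank k⟮t⟯ L = 2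

/-- An element where the character `χ` of the subgroup `H` has the value `-1` has a fixed point:
the double cover from `C/ker χ` to `C/H` has a branch point (if it is not an isomorphism). -/
def Ramified {K : Type} [Field K] [Algebra k K] (α : G →* (K ≃ₐ[k] K)) (H : Subgroup G)
    (χ : H →* ℤˣ) : Prop :=
  ∃ (h : H) (P : Place k K), χ h = -1 ∧ act (α h) P = P

/-- The number `d` for a character `χ` with values `1` and `-1` of the subgroup `H`: it is the genus
of `C/H` if `χ` is trivial. If `χ` is not trivial it is the genus of `C/ker χ`, or the difference of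
the genera of `C/ker χ` and `C/H`, the dimension of the Prym variety of this double cover; this
second case is only allowed if the difference is zero or the double cover has branch points or
`C/H` has a function of degree two. -/
def PartBound {K : Type} [Field K] [Algebra k K] (α : G →* (K ≃ₐ[k] K)) (H : Subgroup G)
    (χ : H →* ℤˣ) (d : ℕ) : Prop :=
  (χ = 1 ∧ HasGenus k (fixedField (H.map α)) d) ∨
  (χ ≠ 1 ∧ HasGenus k (fixedField ((χ.ker.map H.subtype).map α)) d) ∨
  (χ ≠ 1 ∧ ∃ g, HasGenus k (fixedField (H.map α)) g ∧
    HasGenus k (fixedField ((χ.ker.map H.subtype).map α)) (g + d) ∧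
    (d = 0 ∨ Ramified α H χ ∨ DegreeTwo k (fixedField (H.map α))))

end defs

section proofs

variable {k : Type} [Field k] [IsAlgClosed k] [CharZero k] {K1 K2 : Type} [Field K1] [Algebra k K1]
  [Field K2] [Algebra k K2] [IsFF k K1] [IsFF k K2] {G : Type} [Group G] [Fintype G]

/-- the cycle which is subtracted -/
noncomputable def om {K : Type} [Field K] [Algebra k K] {H : Type} [Group H] [Fintype H]
    (β : H →* (K ≃ₐ[k] K)) (χ : H →* ℤˣ) (o : Place k K) : Place k K →₀ ℤ :=
  haveI := Classical.dec (χ = 1)
  if χ = 1 then ex β χ o else 0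

theorem van_part {K : Type} [Field K] [Algebra k K] [IsFF k K] (α : G →* (K ≃ₐ[k] K))
    (H : Subgroup G) [Fintype H] (χ : H →* ℤˣ) {d : ℕ} (hd : PartBound α H χ d) (o : Place k K) :
    Van k (fun P => ex (α.comp H.subtype) χ P - om (α.comp H.subtype) χ o) d := by
  classical
  have hr1 : (α.comp H.subtype).range = H.map α := by
    rw [MonoidHom.range_comp, Subgroup.range_subtype]
  have hr2 : ((α.comp H.subtype).comp χ.ker.subtype).range = (χ.ker.map H.subtype).map α := by
    rw [MonoidHom.range_comp, Subgroup.range_subtype, Subgroup.map_map]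
  have h5 : Fintype χ.ker := Fintype.ofFinite _
  by_cases hχ : χ = 1
  · have h2 : HasGenus k (fixedField (H.map α)) d := by
      rcases hd with h | h | h
      · exact h.2
      · exact absurd hχ h.1
      · exact absurd hχ h.1
    subst hχ
    have h4 := van_one (α.comp H.subtype) (by rw [hr1]; exact h2) o
    unfold om
    rw [if_pos rfl]
    exact h4
  · have h4 : (fun P => ex (α.comp H.subtype) χ P - om (α.comp H.subtype) χ o) =
        ex (α.comp H.subtype) χ := by
      funext P
      unfold om
      rw [if_neg hχ, sub_zero]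
    rw [h4]
    rcases hd with h | ⟨-, h2⟩ | ⟨-, g, h2, h3, hr⟩
    · exact absurd h.1 hχ
    · exact van_ker _ χ (by rw [hr2]; exact h2) hχ
    · rcases hr with hr | ⟨h, P, hh, hP⟩ | hr
      · subst hr
        exact van_char_zero _ χ (by rw [hr1]; exact h2) (by rw [hr2]; exact h3) hχ
      · exact van_char _ χ (by rw [hr1]; exact h2) (by rw [hr2]; exact h3) hh hP
      · rw [← hr1] at hr
        obtain ⟨t, ht, ht2⟩ := hr
        exact van_char_hyper _ χ (by rw [hr1]; exact h2) (by rw [hr2]; exact h3) hχ ht ht2

/-- The general case. -/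
theorem general (α1 : G →* (K1 ≃ₐ[k] K1)) (α2 : G →* (K2 ≃ₐ[k] K2))
    {J : Type} [Fintype J] (H : J → Subgroup G) (χ : ∀ j, H j →* ℤˣ) (c : J → ℤ) (d1 d2 : J → ℕ)
    (hc : ∀ x : G, x ≠ 1 → ∑ j, c j * ∑ g : G, cf (χ j) (g * x * g⁻¹) = 0)
    (hc0 : ∑ j, c j ≠ 0) (h1 : ∀ j, PartBound α1 (H j) (χ j) (d1 j))
    (h2 : ∀ j, PartBound α2 (H j) (χ j) (d2 j))
    (n : ℕ) (hn : ∑ j, d1 j * d2 j < n) : Vanishes α1 α2 n := by
  classical
  intro a ha
  have hf : ∀ j, Fintype (H j) := fun j => Fintype.ofFinite _
  obtain ⟨o1, -⟩ := exists_place (k := k) (K := K1)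
  obtain ⟨o2, -⟩ := exists_place (k := k) (K := K2)
  have hq : ∀ y : Quotient (orb α1 α2), ∃ x, (Quotient.mk (orb α1 α2) x) = y :=
    fun y => Quotient.exists_rep y
  choose r hr' using hq
  have hid : ∀ (K : Type) [Field K] [Algebra k K] [IsFF k K] {f : K}, f ≠ 0 →
      divisor k f ∈ RatEq (curve k K) := by
    intro K _ _ _ f hf
    have hid : (curve k K).IsMor K (fun P => P) :=
      Or.inr ⟨AlgHom.id k K, fun P => ⟨1, one_pos, fun g => by simp⟩⟩
    have h5 := mem_ratEq (X := curve k K) (L := K) hid hf
    have h6 : Finsupp.mapDomain (fun P : Place k K => P) (divisor k f) = divisor k f :=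
      Finsupp.mapDomain_id
    rwa [h6] at h5
  have h3 := quot_alt' α1 α2 H χ c (fun j => om (α1.comp (H j).subtype) (χ j) o1)
    (fun j => om (α2.comp (H j).subtype) (χ j) o2) (fun j => d1 j * d2 j) hc hc0
    (fun j => Or.inl ⟨d1 j, d2 j, van_part α1 (H j) (χ j) (h1 j) o1,
      van_part α2 (H j) (χ j) (h2 j) o2, rfl⟩) hn
    (Quotient.mk (orb α1 α2)) (by
      intro g s t
      exact (Quotient.sound (s := orb α1 α2) (show (orb α1 α2).r (s, t) _ from ⟨g, rfl⟩)).symm)
    (fun i => Finsupp.mapDomain r (a i)) (by
      intro i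
      have h4 := (ha i).1
      change (Finsupp.mapDomain r (a i)).sum (fun _ m => m) = 0
      rw [Finsupp.sum_mapDomain_index (fun _ => rfl) (fun _ _ _ => rfl)]
      exact h4) (by
      intro i
      obtain ⟨N, hN, f, hf, h4⟩ := (ha i).2.1
      refine ⟨N, hN, ?_⟩
      have h5 : pp1 α1 (Finsupp.mapDomain r (a i)) = (a i).sum fun y m => m • fst α1 α2 y := by
        change Finsupp.linearCombination ℤ (fun x : Place k K1 × Place k K2 => NN α1 x.1)
          (Finsupp.mapDomain r (a i)) = _
        rw [Finsupp.linearCombination_mapDomain, Finsupp.linearCombination_apply]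
        refine Finsupp.sum_congr fun y _ => ?_
        congr 1
        conv_rhs => rw [← hr' y]
        rfl
      rw [h5, h4]
      exact hid K1 hf) (by
      intro i
      obtain ⟨N, hN, f, hf, h4⟩ := (ha i).2.2
      refine ⟨N, hN, ?_⟩
      have h5 : pp2 α2 (Finsupp.mapDomain r (a i)) = (a i).sum fun y m => m • snd α1 α2 y := by
        change Finsupp.linearCombination ℤ (fun x : Place k K1 × Place k K2 => NN α2 x.2)
          (Finsupp.mapDomain r (a i)) = _
        rw [Finsupp.linearCombination_mapDomain, Finsupp.linearCombination_apply]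
        refine Finsupp.sum_congr fun y _ => ?_
        congr 1
        conv_rhs => rw [← hr' y]
        rfl
      rw [h5, h4]
      exact hid K2 hf)
  have h4 : (fun i => Finsupp.mapDomain (Quotient.mk (orb α1 α2)) (Finsupp.mapDomain r (a i))) =
      a := by
    funext i
    rw [← Finsupp.mapDomain_comp]
    have : (Quotient.mk (orb α1 α2)) ∘ r = id := funext hr'
    rw [this, Finsupp.mapDomain_id]
  rw [h4] at h3
  exact h3

end proofs

/-- Voisin's conjecture, with rational coefficients, for quotients of products of two curves by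
finite groups. -/
theorem result {k : Type} [Field k] [IsAlgClosed k] [CharZero k] (K1 K2 : Type) [Field K1]
    [Algebra k K1] [IsFF k K1] [Field K2] [Algebra k K2] [IsFF k K2] (G : Type) [Group G]
    [Fintype G] (α1 : G →* (K1 ≃ₐ[k] K1)) (α2 : G →* (K2 ≃ₐ[k] K2)) :
    (∀ (J : Type) [Fintype J] (H : J → Subgroup G) (χ : ∀ j, H j →* ℤˣ) (c : J → ℤ)
      (d1 d2 : J → ℕ),
      (∀ x : G, x ≠ 1 → ∑ j, c j * ∑ g : G, cf (χ j) (g * x * g⁻¹) = 0) →
      ∑ j, c j ≠ 0 →
      (∀ j, PartBound α1 (H j) (χ j) (d1 j)) →
      (∀ j, PartBound α2 (H j) (χ j) (d2 j)) →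
      ∀ n : ℕ, ∑ j, d1 j * d2 j < n → Vanishes α1 α2 n) ∧
    ((∀ x : G, x * x = 1) → ∀ g1 g2 : ℕ,
      HasGenus k (fixedField α1.range) g1 → HasGenus k (fixedField α2.range) g2 →
      ∀ p1 p2 : (G →* ℤˣ) → ℕ,
      (∀ χ, χ ≠ 1 → HasGenus k (fixedField (χ.ker.map α1)) (g1 + p1 χ)) →
      (∀ χ, χ ≠ 1 → HasGenus k (fixedField (χ.ker.map α2)) (g2 + p2 χ)) →
      (∀ χ : G →* ℤˣ, χ ≠ 1 → p1 χ * p2 χ ≠ 0 →
        (DegreeTwo k (fixedField α1.range) ∨
          ∃ (h : G) (P : Place k K1), χ h = -1 ∧ act (α1 h) P = P) ∧
        (DegreeTwo k (fixedField α2.range) ∨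
          ∃ (h : G) (P : Place k K2), χ h = -1 ∧ act (α2 h) P = P)) →
      ∀ n : ℕ, g1 * g2 + ∑ᶠ χ ∈ {χ : G →* ℤˣ | χ ≠ 1}, p1 χ * p2 χ < n → Vanishes α1 α2 n) := by
  classical
  refine ⟨fun J _ H χ c d1 d2 hc hc0 h1 h2 n hn =>
    general α1 α2 H χ c d1 d2 hc hc0 h1 h2 n hn, ?_⟩
  intro hG g1 g2 h01 h02 p1 p2 h1 h2 hr n hn
  have : Finite (G →* ℤˣ) := inferInstance
  have : Fintype (G →* ℤˣ) := Fintype.ofFinite _
  -- the characters as characters of the subgroup `⊤`
  let ψ : (G →* ℤˣ) → ((⊤ : Subgroup G) →* ℤˣ) := fun χ => χ.comp (⊤ : Subgroup G).subtype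
  have hψ : ∀ χ, ψ χ = 1 ↔ χ = 1 := by
    intro χ
    constructor
    · intro h
      ext x
      have := DFunLike.congr_fun h ⟨x, Subgroup.mem_top x⟩
      exact congrArg _ this
    · rintro rfl
      rfl
  have htop : ∀ {K : Type} [Field K] [Algebra k K] (α : G →* (K ≃ₐ[k] K)),
      (⊤ : Subgroup G).map α = α.range := fun α => (MonoidHom.range_eq_map α).symm
  have hker : ∀ χ, (ψ χ).ker.map (⊤ : Subgroup G).subtype = χ.ker := by
    intro χ
    ext x
    constructor
    · rintro ⟨y, hy, rfl⟩
      exact hy
    · intro hx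
      exact ⟨⟨x, Subgroup.mem_top x⟩, hx, rfl⟩
  -- the bounds on one side, `b χ` says that the difference of the genera can be used
  have hpart : ∀ {K : Type} [Field K] [Algebra k K] (α : G →* (K ≃ₐ[k] K)) (g : ℕ)
      (p : (G →* ℤˣ) → ℕ), HasGenus k (fixedField α.range) g →
      (∀ χ, χ ≠ 1 → HasGenus k (fixedField (χ.ker.map α)) (g + p χ)) →
      ∀ (χ : G →* ℤˣ) (b : Prop) [Decidable b],
        (χ ≠ 1 → b → p χ = 0 ∨ (∃ (h : G) (P : Place k K), χ h = -1 ∧ act (α h) P = P) ∨
          DegreeTwo k (fixedField α.range)) →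
        PartBound α ⊤ (ψ χ) (if χ = 1 then g else if b then p χ else g + p χ) := by
    intro K _ _ α g p h0 hp χ b _ hb
    by_cases h : χ = 1
    · left
      rw [if_pos h, htop]
      exact ⟨(hψ χ).2 h, h0⟩
    · rw [if_neg h]
      by_cases hb' : b
      · right
        right
        rw [if_pos hb', htop, hker]
        refine ⟨fun h' => h ((hψ χ).1 h'), g, h0, hp χ h, ?_⟩
        rcases hb h hb' with h3 | ⟨a, P, ha, hP⟩ | h3
        · exact Or.inl h3
        · exact Or.inr (Or.inl ⟨⟨a, Subgroup.mem_top a⟩, P, ha, hP⟩)
        · exact Or.inr (Or.inr h3)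
      · right
        left
        rw [if_neg hb', hker]
        exact ⟨fun h' => h ((hψ χ).1 h'), hp χ h⟩
  refine general α1 α2 (fun _ : G →* ℤˣ => ⊤) ψ (fun _ => 1)
    (fun χ => if χ = 1 then g1 else if p2 χ ≠ 0 ∨ p1 χ = 0 then p1 χ else g1 + p1 χ)
    (fun χ => if χ = 1 then g2 else if p1 χ ≠ 0 then p2 χ else g2 + p2 χ) ?_ ?_
    (fun χ => hpart α1 g1 p1 h01 h1 χ _ ?_) (fun χ => hpart α2 g2 p2 h02 h2 χ _ ?_) n ?_
  · intro x hx
    have h3 : ∀ χ : G →* ℤˣ, 1 * ∑ g : G, cf (ψ χ) (g * x * g⁻¹) =
        Fintype.card G * ((χ x : ℤˣ) : ℤ) := by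
      intro χ
      rw [one_mul]
      have h4 : ∀ g : G, cf (ψ χ) (g * x * g⁻¹) = ((χ x : ℤˣ) : ℤ) := by
        intro g
        unfold cf
        rw [dif_pos (Subgroup.mem_top _)]
        change ((χ (g * x * g⁻¹) : ℤˣ) : ℤ) = _
        rw [map_mul, map_mul, map_inv, mul_right_comm, mul_inv_cancel, one_mul]
      rw [Finset.sum_congr rfl fun g _ => h4 g, Finset.sum_const, Finset.card_univ, nsmul_eq_mul]
    rw [Finset.sum_congr rfl fun χ _ => h3 χ, ← Finset.mul_sum, char_sum hG hx, mul_zero]
  · rw [Finset.sum_const, Finset.card_univ, nsmul_eq_mul, mul_one]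
    have : 0 < Fintype.card (G →* ℤˣ) := Fintype.card_pos
    omega
  · intro h hb
    by_cases h3 : p1 χ = 0
    · exact Or.inl h3
    · have h4 : p2 χ ≠ 0 := hb.resolve_right h3
      rcases (hr χ h (Nat.mul_ne_zero h3 h4)).1 with h5 | h5
      · exact Or.inr (Or.inr h5)
      · exact Or.inr (Or.inl h5)
  · intro h hb
    by_cases h3 : p2 χ = 0
    · exact Or.inl h3
    · rcases (hr χ h (Nat.mul_ne_zero hb h3)).2 with h5 | h5
      · exact Or.inr (Or.inr h5)
      · exact Or.inr (Or.inl h5)
  · refine lt_of_eq_of_lt ?_ hn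
    rw [finsum_mem_def, finsum_eq_sum_of_fintype,
      ← Finset.add_sum_erase Finset.univ _ (Finset.mem_univ (1 : G →* ℤˣ)), if_pos rfl, if_pos rfl,
      ← Finset.add_sum_erase Finset.univ _ (Finset.mem_univ (1 : G →* ℤˣ))]
    have h3 : Set.indicator {χ : G →* ℤˣ | χ ≠ 1} (fun χ => p1 χ * p2 χ) 1 = 0 := by simp
    rw [h3, zero_add]
    congr 1
    refine Finset.sum_congr rfl fun χ hχ => ?_
    have h : χ ≠ 1 := Finset.ne_of_mem_erase hχ
    rw [if_neg h, if_neg h]
    have h4 : Set.indicator {χ : G →* ℤˣ | χ ≠ 1} (fun χ => p1 χ * p2 χ) χ = p1 χ * p2 χ := by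
      simp [h]
    rw [h4]
    by_cases h5 : p1 χ = 0
    · rw [if_pos (Or.inr h5), h5, zero_mul, zero_mul]
    · by_cases h6 : p2 χ = 0
      · rw [if_pos h5, h6, mul_zero, mul_zero]
      · rw [if_pos (Or.inl h6), if_pos h5]

end Pool.Agent.Results.MP_83b46e_ag.PrymQuotients
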