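import Pool.Agent.J4.H17.ZC.Sym

/-!
# Voisin's conjecture on zero-cycles for the symmetric squares of curves

The definitions of zero-cycles, rational equivalence, genus, exterior products and of the
symmetric square are in `Pool.Agent.J4.H17.ZC.Defs` and `Pool.Agent.J4.H17.ZC.Quo`.
-/

set_option autoImplicit false

open FF

namespace Pool.Agent.Results.MP_83b46e_ag.SymmetricSquares

open Pool.Agent.J4.H17.ZC

section

variable {k : Type} [Field k] {K : Type} [Field K] [Algebra k K]

/-- The divisor `s + t` on the curve given by the point `{s, t}` of the symmetric square. -/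
noncomputable def pairDiv (x : Sym2 (Place k K)) : Place k K →₀ ℤ :=
  Sym2.lift ⟨fun s t => Finsupp.single s 1 + Finsupp.single t 1, fun _ _ => add_comm _ _⟩ x

/-- Albanese-trivial zero-cycles on the symmetric square of the curve: the sum of the divisors
`s + t` of the points `{s, t}` of the cycle, with multiplicities, is principal. -/
def AlbTrivial [CharZero k] [IsFF k K] (a : Sym2 (Place k K) →₀ ℤ) : Prop :=
  Principal k K (a.sum fun x c => c • pairDiv x)

/-- the inverse image in the square of a point of the symmetric square -/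
noncomputable def up (x : Sym2 (Place k K)) : Place k K × Place k K →₀ ℤ :=
  Sym2.lift ⟨fun s t => Finsupp.single (s, t) 1 + Finsupp.single (t, s) 1,
    fun _ _ => add_comm _ _⟩ x

theorem up_mk (s t : Place k K) :
    up s(s, t) = Finsupp.single (s, t) 1 + Finsupp.single (t, s) 1 := rfl

theorem pairDiv_mk (s t : Place k K) :
    pairDiv s(s, t) = Finsupp.single s 1 + Finsupp.single t 1 := rfl

/-- the inverse image of a zero-cycle -/
noncomputable def UP : (Sym2 (Place k K) →₀ ℤ) →ₗ[ℤ] (Place k K × Place k K →₀ ℤ) :=
  Finsupp.linearCombination ℤ up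

theorem map_UP (a : Sym2 (Place k K) →₀ ℤ) :
    Finsupp.mapDomain (fun p => s(p.1, p.2)) (UP a) = (2 : ℤ) • a := by
  have h : (Finsupp.mapDomain.addMonoidHom (M := ℤ)
      fun p : Place k K × Place k K => s(p.1, p.2)).comp (UP (k := k) (K := K)).toAddMonoidHom =
      (zsmulAddGroupHom (2 : ℤ) : (Sym2 (Place k K) →₀ ℤ) →+ _) := by
    refine Finsupp.addHom_ext fun x c => ?_
    change Finsupp.mapDomain _ (UP (Finsupp.single x c)) = (2 : ℤ) • Finsupp.single x c
    unfold UP
    rw [Finsupp.linearCombination_single, Finsupp.mapDomain_smul]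
    induction x using Sym2.ind with
    | _ s t =>
      rw [up_mk, Finsupp.mapDomain_add, Finsupp.mapDomain_single, Finsupp.mapDomain_single,
        Sym2.eq_swap (a := t), ← two_smul ℤ, smul_comm, Finsupp.smul_single c, smul_eq_mul,
        mul_one]
  exact DFunLike.congr_fun h a

theorem fst_UP (a : Sym2 (Place k K) →₀ ℤ) :
    Finsupp.mapDomain Prod.fst (UP a) = a.sum fun x c => c • pairDiv x := by
  have h : (Finsupp.mapDomain.addMonoidHom (M := ℤ)
      (Prod.fst : Place k K × Place k K → Place k K)).comp
      (UP (k := k) (K := K)).toAddMonoidHom =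
      (Finsupp.linearCombination ℤ (pairDiv (k := k) (K := K))).toAddMonoidHom := by
    refine Finsupp.addHom_ext fun x c => ?_
    change Finsupp.mapDomain _ (UP (Finsupp.single x c)) =
      Finsupp.linearCombination ℤ pairDiv (Finsupp.single x c)
    unfold UP
    rw [Finsupp.linearCombination_single, Finsupp.linearCombination_single,
      Finsupp.mapDomain_smul]
    induction x using Sym2.ind with
    | _ s t =>
      rw [up_mk, Finsupp.mapDomain_add, Finsupp.mapDomain_single, Finsupp.mapDomain_single,
        pairDiv_mk]
  exact DFunLike.congr_fun h a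

theorem snd_UP (a : Sym2 (Place k K) →₀ ℤ) :
    Finsupp.mapDomain Prod.snd (UP a) = a.sum fun x c => c • pairDiv x := by
  have h : (Finsupp.mapDomain.addMonoidHom (M := ℤ)
      (Prod.snd : Place k K × Place k K → Place k K)).comp
      (UP (k := k) (K := K)).toAddMonoidHom =
      (Finsupp.linearCombination ℤ (pairDiv (k := k) (K := K))).toAddMonoidHom := by
    refine Finsupp.addHom_ext fun x c => ?_
    change Finsupp.mapDomain _ (UP (Finsupp.single x c)) =
      Finsupp.linearCombination ℤ pairDiv (Finsupp.single x c)
    unfold UP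
    rw [Finsupp.linearCombination_single, Finsupp.linearCombination_single,
      Finsupp.mapDomain_smul]
    induction x using Sym2.ind with
    | _ s t =>
      rw [up_mk, Finsupp.mapDomain_add, Finsupp.mapDomain_single, Finsupp.mapDomain_single,
        pairDiv_mk, add_comm]
  exact DFunLike.congr_fun h a

theorem ext_UP {n : ℕ} (a : Fin n → (Sym2 (Place k K) →₀ ℤ)) :
    (ext fun i => UP (a i)) =
      Finsupp.linearCombination ℤ (fun x : Fin n → Sym2 (Place k K) => ext fun i => up (x i))
        (ext a) := by
  classical
  let f1 : MultilinearMap ℤ (fun _ : Fin n => Sym2 (Place k K) →₀ ℤ)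
      ((Fin n → Place k K × Place k K) →₀ ℤ) :=
    (extM (Place k K × Place k K) n).compLinearMap fun _ => UP
  let f2 : MultilinearMap ℤ (fun _ : Fin n => Sym2 (Place k K) →₀ ℤ)
      ((Fin n → Place k K × Place k K) →₀ ℤ) :=
    (Finsupp.linearCombination ℤ
      (fun x : Fin n → Sym2 (Place k K) => ext fun i => up (x i))).compMultilinearMap
      (extM (Sym2 (Place k K)) n)
  have h : f1 = f2 := by
    refine Module.Basis.ext_multilinear (fun _ => Finsupp.basisSingleOne) ?_
    intro x
    change (ext fun i => UP (Finsupp.basisSingleOne (x i))) =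
      Finsupp.linearCombination ℤ (fun x : Fin n → Sym2 (Place k K) => ext fun i => up (x i))
        (ext fun i => Finsupp.basisSingleOne (x i))
    simp only [Finsupp.coe_basisSingleOne]
    rw [ext_single, Finsupp.linearCombination_single, one_smul]
    congr 1
    funext i
    unfold UP
    rw [Finsupp.linearCombination_single, one_smul]
  exact congrArg (fun g : MultilinearMap ℤ (fun _ : Fin n => Sym2 (Place k K) →₀ ℤ)
      ((Fin n → Place k K × Place k K) →₀ ℤ) => g a) h

theorem ext_up {n : ℕ} (w : Fin n × Bool → Place k K) :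
    (ext fun i => up s(w (i, false), w (i, true))) =
      ∑ e : Fin n → Bool, Finsupp.single (FF2 fun j => w (fl e j)) 1 := by
  classical
  have h1 : ∀ i, up s(w (i, false), w (i, true)) =
      ∑ b : Bool, Finsupp.single (w (i, xor false b), w (i, xor true b)) 1 := by
    intro i
    rw [up_mk, Fintype.sum_bool, add_comm]
    rfl
  simp only [h1]
  rw [← extM_apply, MultilinearMap.map_sum]
  refine Finset.sum_congr ?_ fun e _ => ?_
  · ext; simp
  rw [extM_apply, ext_single]
  rfl

end

/-- Voisin's conjecture, with rational coefficients, for the symmetric square `S = Sym² C` of a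
smooth projective curve `C` of genus `g`; the geometric genus of `S` is `g (g - 1) / 2`. -/
theorem result {k : Type} [Field k] [IsAlgClosed k] [CharZero k] (K : Type) [Field K]
    [Algebra k K] [IsFF k K] (g : ℕ) (hg : HasGenus k K g) (n : ℕ) (hn : g.choose 2 < n)
    (a : Fin n → (Sym2 (Place k K) →₀ ℤ)) (ha : ∀ i, AlbTrivial (a i)) :
    ∃ N : ℕ, 0 < N ∧ N • altSum a ∈ RatEq ((symSq k K).pow (Fin n)) := by
  classical
  obtain ⟨o, -⟩ := exists_place (k := k) (K := K)
  obtain ⟨N, hN, hmem⟩ : ∃ N : ℕ, 0 < N ∧ N • altSum (fun i => UP (a i)) ∈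
      RatEq (((curve k K).prod (curve k K)).pow (Fin n)) := by
    refine torsion_of_hom _ _ fun l hl => ?_
    rw [l_altSum o o (fun i => UP (a i)) (fun i => by rw [fst_UP]; exact ha i)
      (fun i => by rw [snd_UP]; exact ha i) l hl, ext_UP]
    generalize ext a = z
    induction z using Finsupp.induction_linear with
    | zero => rw [map_zero, map_zero, map_zero, map_zero]
    | add u v hu hv => rw [map_add, map_add, map_add, map_add, hu, hv, add_zero]
    | single x c =>
      rw [Finsupp.linearCombination_single, map_zsmul, map_zsmul, map_zsmul]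
      have h1 : ∀ i, ∃ p : Place k K × Place k K, x i = s(p.1, p.2) := by
        intro i
        induction (x i) using Sym2.ind with
        | _ s t => exact ⟨(s, t), rfl⟩
      choose p hp using h1
      let w : Fin n × Bool → Place k K := fun j => if j.2 then (p j.1).2 else (p j.1).1
      have h2 : (ext fun i => up (x i)) =
          ∑ e : Fin n → Bool, Finsupp.single (FF2 fun j => w (fl e j)) 1 := by
        rw [← ext_up]
        congr 1
        funext i
        rw [hp i]
        rfl
      have h3 : l (EE sg4 (th4 o o) n (ALT (ext fun i => up (x i)))) =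
          ∑ σ : Equiv.Perm (Fin n), ((Equiv.Perm.sign σ : ℤ) : ℚ) * ∑ e : Fin n → Bool,
            l (EE sg4 (th4 o o) n (Finsupp.single (FF2 fun j => w ((fl e * prm σ) j)) 1)) := by
        rw [h2, map_sum, map_sum, map_sum]
        have h4 : ∀ e : Fin n → Bool, l (EE sg4 (th4 o o) n (ALT (Finsupp.single
            (FF2 fun j => w (fl e j)) 1))) = ∑ σ : Equiv.Perm (Fin n),
              ((Equiv.Perm.sign σ : ℤ) : ℚ) * l (EE sg4 (th4 o o) n
                (Finsupp.single (FF2 fun j => w ((fl e * prm σ) j)) 1)) := by
          intro e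
          rw [ALT_single, map_sum, map_sum]
          refine Finset.sum_congr rfl fun σ _ => ?_
          rw [map_zsmul, map_zsmul, zsmul_eq_mul]
          rfl
        rw [Finset.sum_congr rfl fun e _ => h4 e, Finset.sum_comm]
        refine Finset.sum_congr rfl fun σ _ => ?_
        rw [Finset.mul_sum]
      rw [h3, sym_vanish hg o hn w l hl, smul_zero]
  refine ⟨N * 2 ^ n, by positivity, ?_⟩
  have h1 := quot_mem (X := (curve k K).prod (curve k K)) (fun p => s(p.1, p.2)) hmem
  have h2 : Finsupp.mapDomain (fun (x : Fin n → Place k K × Place k K) i => s((x i).1, (x i).2))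
      (N • altSum (fun i => UP (a i))) = (N * 2 ^ n) • altSum a := by
    rw [Finsupp.mapDomain_smul]
    have h3 := map_altSum (fun p : Place k K × Place k K => s(p.1, p.2)) (fun i => UP (a i))
    rw [h3]
    have h4 : (fun i => Finsupp.mapDomain (fun p : Place k K × Place k K => s(p.1, p.2))
        (UP (a i))) = fun i => (2 : ℤ) • a i := funext fun i => map_UP (a i)
    rw [h4, altSum_smul, mul_smul, ← natCast_zsmul (altSum a) (2 ^ n)]
    push_cast
    rfl
  rw [← h2]
  exact h1

end Pool.Agent.Results.MP_83b46e_ag.SymmetricSquares
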